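import Pool.Agent.W457.LenEq

/-!
Tight union-closed families in which every chain of nonempty members has at most five sets.
-/

namespace Pool.Agent.Results.MP_163ab5_co.LengthFive

open Finset

theorem result {α : Type*} [DecidableEq α] (A : Finset (Finset α)) (hne : A.Nonempty)
    (hU : ∀ X ∈ A, ∀ Y ∈ A, X ∪ Y ∈ A)
    (htight : ∀ i, 2 * (A.filter (fun X => i ∈ X)).card ≤ A.card)
    (hch : ∀ C ⊆ A, (∀ X ∈ C, X.Nonempty) → IsChain (· ⊆ ·) (C : Set (Finset α)) → C.card ≤ 5) :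
    ∃ T ⊆ A.sup id, A.card = 2 ^ T.card ∧
      (∀ k ∈ A.sup id, ∃ a ∈ T, ∀ X ∈ A, (k ∈ X ↔ a ∈ X)) ∧
      ∀ S ⊆ T, ∃ X ∈ A, X ∩ T = S := by
  obtain ⟨T, hT, h1, h2⟩ :=
    Pool.Agent.W457.Len.extremal A hne hU (fun i _ => htight i) hch
  exact ⟨T, hT, Pool.Agent.W457.Len.card_extremal A h1 h2, h1, h2⟩

end Pool.Agent.Results.MP_163ab5_co.LengthFive
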